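import Pool.Agent.Helper24.HW.Stmts

/-! HW project, module DSP: number of parts of a special country of the derived map. -/

set_option autoImplicit false

namespace Pool.Agent.Helper49.HW

open Equiv Equiv.Perm Pool.Agent.Helper24.HW Pool.Agent.Helper24.HWPub Pool.Agent.Helper98.Gn

section

variable {T : Type} [Fintype T] [DecidableEq T] {N : ℕ} [NeZero N] {ng ρ : Perm T}
  {cur : T → ZMod N} (h : IsCG N ng ρ cur) (s : {t // ρ t = t})

theorem sg_true (g : ZMod N) :
    (der h).σ (Sum.inr ((g, s), true)) = Sum.inr ((g - cur s.1, s), true) := rfl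

theorem sg_symm_true (g : ZMod N) :
    (der h).σ.symm (Sum.inr ((g, s), true)) = Sum.inr ((g + cur s.1, s), true) := rfl

theorem zpow_true (i : ℤ) : ∀ g : ZMod N,
    ((der h).σ ^ i) (Sum.inr ((g, s), true)) = Sum.inr ((g - i • cur s.1, s), true) := by
  induction i with
  | zero => intro g; simp
  | succ n ih =>
    intro g
    rw [zpow_add_one, Perm.mul_apply, sg_true, ih, add_smul, one_smul]
    congr 3
    abel
  | pred n ih =>
    intro g
    rw [zpow_sub_one, Perm.mul_apply]
    have h1 : ((der h).σ)⁻¹ (Sum.inr ((g, s), true)) = Sum.inr ((g + cur s.1, s), true) := rfl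
    rw [h1, ih, sub_smul, one_smul]
    congr 3
    abel

theorem same_true (g g' : ZMod N) :
    SameCycle (der h).σ (Sum.inr ((g, s), true)) (Sum.inr ((g', s), true)) ↔
      -g + g' ∈ AddSubgroup.zmultiples (cur s.1) := by
  constructor
  · rintro ⟨i, hi⟩
    rw [zpow_true] at hi
    have h2 : g - i • cur s.1 = g' := by
      have := Sum.inr.inj hi
      exact congrArg (fun z => z.1.1) this
    rw [AddSubgroup.mem_zmultiples_iff]
    refine ⟨-i, ?_⟩
    rw [← h2, neg_smul]
    abel
  · intro hm
    rw [AddSubgroup.mem_zmultiples_iff] at hm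
    obtain ⟨k, hk⟩ := hm
    refine ⟨-k, ?_⟩
    rw [zpow_true, neg_smul, hk]
    congr 3
    abel

end

theorem DSP : ST_DSP := by
  intro T _ _ N _ ng ρ cur h s
  have hq : Nat.card (ZMod N ⧸ AddSubgroup.zmultiples (cur s.1)) = N / addOrderOf (cur s.1) := by
    have h1 := AddSubgroup.card_eq_card_quotient_mul_card_addSubgroup
      (AddSubgroup.zmultiples (cur s.1))
    rw [Nat.card_zmultiples, Nat.card_zmod] at h1
    exact (Nat.div_eq_of_eq_mul_left (addOrderOf_pos _) h1).symm
  rw [← hq]
  unfold LM.pt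
  rw [← Nat.card_coe_set_eq]
  symm
  let F : ZMod N ⧸ AddSubgroup.zmultiples (cur s.1) →
      {O : Quotient (SameCycle.setoid (der h).σ) |
        ∃ x, (der h).ℓ x = Sum.inr s ∧ Quotient.mk _ x = O} :=
    Quotient.lift (fun g => ⟨Quotient.mk _ (Sum.inr ((g, s), true)), _, rfl, rfl⟩) (by
      intro g g' hg
      apply Subtype.ext
      apply Quotient.sound
      exact (same_true h s g g').mpr (QuotientAddGroup.leftRel_apply.mp hg))
  refine Nat.card_congr (Equiv.ofBijective F ⟨?_, ?_⟩)
  · intro a b
    refine Quotient.inductionOn₂ a b ?_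
    intro g g' hab
    have h3 := congrArg Subtype.val hab
    have h4 : SameCycle (der h).σ (Sum.inr ((g, s), true)) (Sum.inr ((g', s), true)) :=
      Quotient.exact h3
    apply Quotient.sound
    exact QuotientAddGroup.leftRel_apply.mpr ((same_true h s g g').mp h4)
  · rintro ⟨O, x, hx, rfl⟩
    obtain ⟨g, t⟩ | ⟨⟨g, t⟩, b⟩ := x
    · exact absurd hx (by intro e; cases e)
    · cases b
      · exact absurd hx (by intro e; cases e)
      · have h5 : t = s := Sum.inr.inj hx
        subst h5
        exact ⟨Quotient.mk _ g, rfl⟩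

end Pool.Agent.Helper49.HW
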